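import Mathlib

set_option autoImplicit false

/-!
# P=W for products of groups

For moduli spaces of Higgs bundles on a fixed variety: the equality `P_k = W_{2k}` for the group
`G × G` is equivalent to the equality `P_k = W_{2k}` together with `W_{2k+1} = W_{2k}` for `G`, and
an approximate equality for a power `G ^ N` is enough.
-/

namespace Pool.Agent.Results.MP_65ad7c_ag.ProductGroups

open TensorProduct

/-- The tensor product of two increasing filtrations: its `k`-th step is the sum of the subspaces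
`F i ⊗ F' (k - i)`. -/
noncomputable def tensorFil {V V' : Type*} [AddCommGroup V] [Module ℚ V] [AddCommGroup V']
    [Module ℚ V'] (F : ℤ → Submodule ℚ V) (F' : ℤ → Submodule ℚ V') (k : ℤ) :
    Submodule ℚ (V ⊗[ℚ] V') :=
  ⨆ i : ℤ, Submodule.map₂ (TensorProduct.mk ℚ V V') (F i) (F' (k - i))

/-- The intersection cohomology of the moduli spaces `M (X, G)` for a fixed variety `X` and the
groups `G` in a class `Γ` closed under products (a commutative monoid under products), with the
perverse filtration `P` and the weight filtration `W`, transported to the same space by the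
non-abelian Hodge homeomorphism. -/
structure Moduli (Γ : Type*) [CommMonoid Γ] where
  /-- the dimension of the group -/
  dimG : Γ → ℕ
  dimG_mul : ∀ G G', dimG (G * G') = dimG G + dimG G'
  /-- the intersection cohomology of `M (X, G)` -/
  H : Γ → Type*
  [grp : ∀ G, AddCommGroup (H G)]
  [mod : ∀ G, Module ℚ (H G)]
  /-- the perverse filtration -/
  P : ∀ G, ℤ → Submodule ℚ (H G)
  /-- the weight filtration -/
  W : ∀ G, ℤ → Submodule ℚ (H G)
  P_mono : ∀ G, Monotone (P G)
  W_mono : ∀ G, Monotone (W G)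
  /-- `M (X, G × G') = M (X, G) × M (X, G')` and the Künneth isomorphism -/
  kunneth : ∀ G G', H (G * G') ≃ₗ[ℚ] H G ⊗[ℚ] H G'
  P_kunneth : ∀ G G' k, (P (G * G') k).map (kunneth G G').toLinearMap = tensorFil (P G) (P G') k
  W_kunneth : ∀ G G' k, (W (G * G') k).map (kunneth G G').toLinearMap = tensorFil (W G) (W G') k

attribute [instance] Moduli.grp Moduli.mod

namespace Moduli

variable {Γ : Type*} [CommMonoid Γ] (T : Moduli Γ)

/-- Q1 for the group `G`: `W_{2k+1} = W_{2k}` for all `k` -/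
def EvenWeights (G : Γ) : Prop := ∀ k : ℤ, T.W G (2 * k + 1) = T.W G (2 * k)

/-- Q2 for the group `G`: `P_k = W_{2k}` for all `k` -/
def PW (G : Γ) : Prop := ∀ k : ℤ, T.P G k = T.W G (2 * k)

/-- Q2 for the group `G` up to the error `e`: `P_k ⊆ W_{2k+e}` and `W_{2k} ⊆ P_{k+e}` -/
def PWUpTo (e : ℕ) (G : Γ) : Prop :=
  ∀ k : ℤ, T.P G k ≤ T.W G (2 * k + e) ∧ T.W G (2 * k) ≤ T.P G (k + e)

end Moduli

section

variable {V V' : Type*} [AddCommGroup V] [Module ℚ V] [AddCommGroup V'] [Module ℚ V']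

theorem tmul_mem {F : ℤ → Submodule ℚ V} {F' : ℤ → Submodule ℚ V'} {v : V} {v' : V'} {i j : ℤ}
    (h : v ∈ F i) (h' : v' ∈ F' j) : v ⊗ₜ[ℚ] v' ∈ tensorFil F F' (i + j) := by
  refine Submodule.mem_iSup_of_mem i ?_
  have : i + j - i = j := by ring
  rw [this]
  exact Submodule.apply_mem_map₂ _ h h'

theorem tmul_notMem {F : ℤ → Submodule ℚ V} {F' : ℤ → Submodule ℚ V'} (hF : Monotone F)
    (hF' : Monotone F') {v : V} {v' : V'} {a b : ℤ} (h : v ∉ F a) (h' : v' ∉ F' b) :
    v ⊗ₜ[ℚ] v' ∉ tensorFil F F' (a + b + 1) := by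
  obtain ⟨f, hf, hf0⟩ := Submodule.exists_le_ker_of_notMem h
  obtain ⟨g, hg, hg0⟩ := Submodule.exists_le_ker_of_notMem h'
  intro hm
  have hle : tensorFil F F' (a + b + 1) ≤
      LinearMap.ker ((LinearMap.mul' ℚ ℚ) ∘ₗ TensorProduct.map f g) := by
    refine iSup_le fun i => Submodule.map₂_le.2 fun x hx y hy => ?_
    rw [LinearMap.mem_ker]
    simp only [LinearMap.comp_apply, TensorProduct.mk_apply, TensorProduct.map_tmul,
      LinearMap.mul'_apply]
    rcases le_or_gt i a with hi | hi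
    · have : f x = 0 := hf0 (hF hi hx)
      rw [this, zero_mul]
    · have : g y = 0 := hg0 (hF' (by omega) hy)
      rw [this, mul_zero]
  have h1 := hle hm
  rw [LinearMap.mem_ker] at h1
  simp only [LinearMap.comp_apply, TensorProduct.map_tmul, LinearMap.mul'_apply] at h1
  rcases mul_eq_zero.1 h1 with h2 | h2
  · exact hf h2
  · exact hg h2

end

section

variable {Γ : Type*} [CommMonoid Γ] (T : Moduli Γ)

open Moduli

/-- the class `x ⊗ y` of a product -/
noncomputable def cross {G G' : Γ} (x : T.H G) (y : T.H G') : T.H (G * G') :=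
  (T.kunneth G G').symm (x ⊗ₜ[ℚ] y)

theorem mem_iff {G G' : Γ} {S : Submodule ℚ (T.H (G * G'))}
    {R : Submodule ℚ (T.H G ⊗[ℚ] T.H G')} (h : S.map (T.kunneth G G').toLinearMap = R)
    (z : T.H G ⊗[ℚ] T.H G') : (T.kunneth G G').symm z ∈ S ↔ z ∈ R := by
  rw [← h, Submodule.mem_map]
  constructor
  · intro hz
    exact ⟨_, hz, by simp⟩
  · rintro ⟨w, hw, rfl⟩
    simpa using hw

theorem cross_P {G G' : Γ} {x : T.H G} {y : T.H G'} {i j : ℤ} (h : x ∈ T.P G i)
    (h' : y ∈ T.P G' j) : cross T x y ∈ T.P (G * G') (i + j) :=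
  (mem_iff T (T.P_kunneth G G' _) _).2 (tmul_mem h h')

theorem cross_W {G G' : Γ} {x : T.H G} {y : T.H G'} {i j : ℤ} (h : x ∈ T.W G i)
    (h' : y ∈ T.W G' j) : cross T x y ∈ T.W (G * G') (i + j) :=
  (mem_iff T (T.W_kunneth G G' _) _).2 (tmul_mem h h')

theorem cross_notP {G G' : Γ} {x : T.H G} {y : T.H G'} {i j : ℤ} (h : x ∉ T.P G i)
    (h' : y ∉ T.P G' j) : cross T x y ∉ T.P (G * G') (i + j + 1) := fun hc =>
  tmul_notMem (T.P_mono G) (T.P_mono G') h h' ((mem_iff T (T.P_kunneth G G' _) _).1 hc)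

theorem cross_notW {G G' : Γ} {x : T.H G} {y : T.H G'} {i j : ℤ} (h : x ∉ T.W G i)
    (h' : y ∉ T.W G' j) : cross T x y ∉ T.W (G * G') (i + j + 1) := fun hc =>
  tmul_notMem (T.W_mono G) (T.W_mono G') h h' ((mem_iff T (T.W_kunneth G G' _) _).1 hc)

/-- tensor powers of a class -/
theorem power {G : Γ} (x : T.H G) : ∀ n : ℕ, ∃ y : T.H (G ^ (n + 1)),
    (∀ k, x ∈ T.P G k → y ∈ T.P (G ^ (n + 1)) ((n + 1) * k)) ∧
    (∀ k, x ∉ T.P G k → y ∉ T.P (G ^ (n + 1)) ((n + 1) * k + n)) ∧
    (∀ k, x ∈ T.W G k → y ∈ T.W (G ^ (n + 1)) ((n + 1) * k)) ∧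
    (∀ k, x ∉ T.W G k → y ∉ T.W (G ^ (n + 1)) ((n + 1) * k + n)) := by
  intro n
  induction n with
  | zero =>
    rw [zero_add, pow_one]
    exact ⟨x, by simp, by simp, by simp, by simp⟩
  | succ n ih =>
    obtain ⟨y, h1, h2, h3, h4⟩ := ih
    rw [pow_succ]
    refine ⟨cross T y x, fun k hk => ?_, fun k hk => ?_, fun k hk => ?_, fun k hk => ?_⟩
    · have := cross_P T (h1 k hk) hk
      convert this using 2
      push_cast; ring
    · have := cross_notP T (h2 k hk) hk
      convert this using 3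
      push_cast; ring
    · have := cross_W T (h3 k hk) hk
      convert this using 2
      push_cast; ring
    · have := cross_notW T (h4 k hk) hk
      convert this using 3
      push_cast; ring

/-- an approximate equality for a power of `G` gives Q1 and Q2 for `G` -/
theorem of_power {G : Γ} {e N : ℕ} (hN : 2 * e + 1 < N) (h : T.PWUpTo e (G ^ N)) :
    T.EvenWeights G ∧ T.PW G := by
  obtain ⟨n, rfl⟩ : ∃ n, N = n + 1 := ⟨N - 1, by omega⟩
  have hPW : T.PW G := by
    intro k
    refine le_antisymm (fun x hx => ?_) (fun x hx => ?_)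
    · by_contra hc
      obtain ⟨y, h1, h2, h3, h4⟩ := power T x n
      refine h4 _ hc (T.W_mono _ ?_ ((h _).1 (h1 k hx)))
      nlinarith
    · by_contra hc
      obtain ⟨y, h1, h2, h3, h4⟩ := power T x n
      have h5 := h3 _ hx
      have h6 : ((n : ℤ) + 1) * (2 * k) = 2 * (((n : ℤ) + 1) * k) := by ring
      rw [h6] at h5
      refine h2 _ hc (T.P_mono _ ?_ ((h _).2 h5))
      omega
  refine ⟨fun k => le_antisymm (fun x hx => ?_) (T.W_mono G (by omega)), hPW⟩
  by_contra hc
  rw [← hPW k] at hc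
  obtain ⟨y, h1, h2, h3, h4⟩ := power T x n
  have h5 := h3 _ hx
  -- the weight of `y` is at most `(n+1)(2k+1) ≤ 2 ((n+1) k + (n+2)/2)`
  have h6 : y ∈ T.W (G ^ (n + 1)) (2 * (((n : ℤ) + 1) * k + ((n : ℤ) + 2) / 2)) := by
    refine T.W_mono _ ?_ h5
    have : ((n : ℤ) + 1) * (2 * k + 1) = 2 * (((n : ℤ) + 1) * k) + (n + 1) := by ring
    rw [this]
    omega
  refine h2 _ hc (T.P_mono _ ?_ ((h _).2 h6))
  omega

/-- Q1 and Q2 for `G` give Q2 for `G × G` -/
theorem square {G : Γ} (hE : T.EvenWeights G) (hP : T.PW G) : T.PW (G * G) := by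
  intro k
  have hinj : Function.Injective (Submodule.map (T.kunneth G G).toLinearMap) :=
    Submodule.map_injective_of_injective (T.kunneth G G).injective
  apply hinj
  rw [T.P_kunneth, T.W_kunneth]
  refine le_antisymm (iSup_le fun i => ?_) (iSup_le fun i => ?_)
  · rw [hP i, hP (k - i)]
    refine le_iSup_of_le (2 * i) ?_
    have : 2 * (k - i) = 2 * k - 2 * i := by ring
    rw [this]
  · rcases Int.even_or_odd' i with ⟨a, ha | ha⟩
    · subst ha
      refine le_iSup_of_le a ?_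
      rw [hP a, hP (k - a)]
      have : 2 * (k - a) = 2 * k - 2 * a := by ring
      rw [this]
    · subst ha
      refine le_iSup_of_le a ?_
      have h1 : 2 * k - (2 * a + 1) = 2 * (k - a - 1) + 1 := by ring
      rw [h1, hE a, hE (k - a - 1), ← hP a, ← hP (k - a - 1)]
      exact Submodule.map₂_le_map₂_right (T.P_mono G (by omega))

end

/-- Fix a variety `X`, and let `T` be the moduli spaces `M (X, G)` for a class of groups closed
under products.

(1) Q1 and Q2 hold for `G` if and only if Q2 holds for `G × G`.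

(2) Q1 and Q2 hold for `G` if for some `N` and `e` with `2 e + 1 < N` the group `G ^ N` satisfies
Q2 up to the error `e`.

(3) If Q2 holds for all groups in the class, then so does Q1.

(4) Q1 and Q2 hold for all groups in the class if and only if Q2 holds up to an error that is
`o (dim G)`: for every `ε > 0` there is `C` such that every `G` satisfies Q2 up to an error
`e ≤ ε dim G + C`. -/
theorem result {Γ : Type*} [CommMonoid Γ] (T : Moduli Γ) :
    (∀ G, (T.EvenWeights G ∧ T.PW G) ↔ T.PW (G * G)) ∧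
    (∀ (G : Γ) (e N : ℕ), 2 * e + 1 < N → T.PWUpTo e (G ^ N) → T.EvenWeights G ∧ T.PW G) ∧
    ((∀ G, T.PW G) → ∀ G, T.EvenWeights G) ∧
    ((∀ G, T.EvenWeights G ∧ T.PW G) ↔ ∀ ε : ℝ, 0 < ε → ∃ C : ℝ, ∀ G, ∃ e : ℕ,
      (e : ℝ) ≤ ε * T.dimG G + C ∧ T.PWUpTo e G) := by
  have hsq : ∀ G, T.PW (G * G) → T.EvenWeights G ∧ T.PW G := by
    intro G h
    refine of_power T (e := 0) (N := 2) (by omega) ?_
    rw [pow_two]
    intro k
    rw [Nat.cast_zero, add_zero, add_zero]
    exact ⟨(h k).le, (h k).ge⟩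
  refine ⟨fun G => ⟨fun h => square T h.1 h.2, hsq G⟩, fun G e N hN h => of_power T hN h,
    fun h G => (hsq G (h _)).1, fun h ε hε => ⟨0, fun G => ⟨0, ?_, ?_⟩⟩, fun h G => ?_⟩
  · simp only [Nat.cast_zero, add_zero]
    positivity
  · intro k
    rw [Nat.cast_zero, add_zero, add_zero]
    exact ⟨((h G).2 k).le, ((h G).2 k).ge⟩
  · have hε : (0 : ℝ) < 1 / (4 * ((T.dimG G : ℝ) + 1)) := by positivity
    obtain ⟨C, hC⟩ := h _ hε
    obtain ⟨m, hm⟩ := exists_nat_gt (4 * C + 4)
    have hdim : ∀ n : ℕ, T.dimG (G ^ (n + 1)) = (n + 1) * T.dimG G := by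
      intro n
      induction n with
      | zero => simp
      | succ n ih => rw [pow_succ, T.dimG_mul, ih]; ring
    obtain ⟨e, he, h1⟩ := hC (G ^ (m + 4 + 1))
    refine of_power T ?_ h1
    have h2 : 1 / (4 * ((T.dimG G : ℝ) + 1)) * (T.dimG (G ^ (m + 4 + 1)) : ℝ) ≤
        ((m : ℝ) + 5) / 4 := by
      rw [hdim]
      push_cast
      rw [div_mul_eq_mul_div, one_mul, div_le_div_iff₀ (by positivity) (by norm_num)]
      have : (0 : ℝ) ≤ (m : ℝ) + 5 := by positivity
      nlinarith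
    have h3 : (2 * (e : ℝ) + 1) < (m : ℝ) + 5 := by linarith
    have h4 : ((2 * e + 1 : ℕ) : ℝ) < ((m + 4 + 1 : ℕ) : ℝ) := by
      push_cast
      linarith
    exact_mod_cast h4

end Pool.Agent.Results.MP_65ad7c_ag.ProductGroups
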