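import Mathlib

/-!
# P=W for Higgs bundles on higher-dimensional varieties: surfaces are enough
-/

universe u

namespace Pool.Agent.Results.MP_65ad7c_ag.SurfacesSuffice

/-- The weight and perverse filtrations on the intersection cohomology of the Betti and Dolbeault
moduli spaces of a variety and a reductive group. -/
structure Filtered where
  /-- the intersection cohomology of the Betti moduli space -/
  B : Type u
  /-- the intersection cohomology of the Dolbeault moduli space -/
  D : Type u
  /-- the non-abelian Hodge isomorphism -/
  Ψ : B ≃ D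
  /-- the weight filtration -/
  W : ℤ → Set B
  /-- the perverse filtration -/
  P : ℤ → Set D

/-- The weight filtration has even weights only (question Q1). -/
def Even (F : Filtered.{u}) : Prop := ∀ k : ℤ, F.W (2 * k + 1) = F.W (2 * k)

/-- The perverse and weight filtrations agree (question Q2). -/
def PW (F : Filtered.{u}) : Prop := ∀ k : ℤ, F.Ψ '' F.W (2 * k) = F.P k

/-- Isomorphisms of the two cohomology spaces, compatible with `Ψ` and both filtrations. -/
structure Iso (F F' : Filtered.{u}) where
  /-- the isomorphism on the Betti side -/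
  b : F.B ≃ F'.B
  /-- the isomorphism on the Dolbeault side -/
  d : F.D ≃ F'.D
  comm : ∀ x, F'.Ψ (b x) = d (F.Ψ x)
  map_W : ∀ k, b '' F.W k = F'.W k
  map_P : ∀ k, d '' F.P k = F'.P k

lemma Iso.even_iff {F F' : Filtered.{u}} (i : Iso F F') : Even F ↔ Even F' := by
  unfold Even
  refine forall_congr' fun k => ?_
  rw [← i.map_W, ← i.map_W, i.b.injective.image_injective.eq_iff]

lemma Iso.pw_iff {F F' : Filtered.{u}} (i : Iso F F') : PW F ↔ PW F' := by
  unfold PW
  refine forall_congr' fun k => ?_
  rw [← i.map_W, ← i.map_P, Set.image_image]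
  have e : (fun x => F'.Ψ (i.b x)) = fun x => i.d (F.Ψ x) := funext i.comm
  rw [e, ← Set.image_image i.d F.Ψ, i.d.injective.image_injective.eq_iff]

/-- Connected smooth projective varieties and reductive groups, with the filtrations on the cohomology
of their moduli spaces. -/
structure Moduli where
  /-- the connected smooth projective varieties -/
  Var : Type u
  /-- the reductive groups -/
  Grp : Type u
  /-- the dimension -/
  dim : Var → ℕ
  /-- the filtrations for `X` and `G` -/
  fil : Var → Grp → Filtered.{u}
  /-- general linear sections, and products with projective spaces -/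
  model : ∀ (X : Var) (m : ℕ), 2 ≤ m → ∃ S : Var, dim S = m ∧
    ∀ G : Grp, Nonempty (Iso (fil X G) (fil S G))

variable (T : Moduli.{u})

/-- Let `m ≥ 2` and let `G` be a reductive group. The weights are even for all varieties and `G` if
and only if they are for all varieties of dimension `m` and `G`; and the same for `P = W`. -/
theorem result (m : ℕ) (hm : 2 ≤ m) (G : T.Grp) :
    ((∀ X, Even (T.fil X G)) ↔ ∀ S, T.dim S = m → Even (T.fil S G)) ∧
    ((∀ X, PW (T.fil X G)) ↔ ∀ S, T.dim S = m → PW (T.fil S G)) := by
  refine ⟨⟨fun h S _ => h S, fun h X => ?_⟩, ⟨fun h S _ => h S, fun h X => ?_⟩⟩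
  · obtain ⟨S, hS, hi⟩ := T.model X m hm
    obtain ⟨i⟩ := hi G
    exact i.even_iff.2 (h S hS)
  · obtain ⟨S, hS, hi⟩ := T.model X m hm
    obtain ⟨i⟩ := hi G
    exact i.pw_iff.2 (h S hS)

end Pool.Agent.Results.MP_65ad7c_ag.SurfacesSuffice
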